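import Pool.Agent.P8H69.IE.Stm

/-!
# Project IE, package EXI: existence of the alternating pair (helper82)
-/

set_option autoImplicit false

open Finset

namespace Pool.Agent.P8H82.IE

open Pool.Agent.P8H69.IE

theorem even_card (k : ℕ) : ((range (2 * k)).filter (fun m => m % 2 = 0)).card = k := by
  induction k with
  | zero => rfl
  | succ k ih =>
    have e : 2 * (k + 1) = 2 * k + 1 + 1 := by ring
    rw [e, range_add_one, range_add_one, filter_insert, if_neg (by omega), filter_insert,
      if_pos (by omega), card_insert_of_notMem, ih]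
    simp

/-- the number of the elements of `Z` before `z` -/
def ff {n : ℕ} (Z : Finset (ZMod n)) (z : ZMod n) : ℕ := (Z.filter (fun y => y.val < z.val)).card

variable {n : ℕ} [NeZero n] (Z : Finset (ZMod n))

theorem ff_mono {y z : ZMod n} (hy : y ∈ Z) (h : y.val < z.val) : ff Z y < ff Z z := by
  unfold ff
  apply card_lt_card
  rw [ssubset_iff_of_subset]
  · refine ⟨y, mem_filter.2 ⟨hy, h⟩, fun h' => ?_⟩
    exact absurd (mem_filter.1 h').2 (lt_irrefl _)
  · intro w hw
    rw [mem_filter] at hw ⊢
    exact ⟨hw.1, hw.2.trans h⟩

theorem ff_lt {z : ZMod n} (hz : z ∈ Z) : ff Z z < Z.card := by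
  unfold ff
  apply card_lt_card
  rw [ssubset_iff_of_subset (filter_subset _ _)]
  exact ⟨z, hz, fun h' => absurd (mem_filter.1 h').2 (lt_irrefl _)⟩

theorem ff_inj : Set.InjOn (ff Z) (Z : Set (ZMod n)) := by
  intro y hy z hz h
  rcases lt_trichotomy y.val z.val with h1 | h1 | h1
  · have := ff_mono Z (mem_coe.1 hy) h1
    omega
  · exact ZMod.val_injective n h1
  · have := ff_mono Z (mem_coe.1 hz) h1
    omega

theorem image_ff : Z.image (ff Z) = range Z.card := by
  apply eq_of_subset_of_card_le
  · intro m hm
    obtain ⟨z, hz, rfl⟩ := mem_image.1 hm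
    exact mem_range.2 (ff_lt Z hz)
  · rw [card_range, card_image_of_injOn (ff_inj Z)]

theorem card_V (k : ℕ) (hk : Z.card = 2 * k) : (Z.filter (fun z => ff Z z % 2 = 0)).card = k := by
  have h1 : ((Z.filter (fun z => ff Z z % 2 = 0)).image (ff Z)).card =
      (Z.filter (fun z => ff Z z % 2 = 0)).card := by
    apply card_image_of_injOn
    intro y hy z hz h
    exact ff_inj Z (mem_coe.2 (mem_filter.1 (mem_coe.1 hy)).1) (mem_coe.2 (mem_filter.1 (mem_coe.1 hz)).1) h
  have h2 : (Z.filter (fun z => ff Z z % 2 = 0)).image (ff Z) = (range (2 * k)).filter (fun m => m % 2 = 0) := by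
    rw [← hk, ← image_ff Z, filter_image]
  rw [← h1, h2, even_card]

theorem cast_val_add (y : ZMod n) (s c : ℕ) (h : y.val + s = c) : y + (s : ZMod n) = (c : ZMod n) := by
  rw [← h, Nat.cast_add, ZMod.natCast_zmod_val]

theorem exi : S_EXI := by
  intro n k _ hk Z hZ
  have hn : 0 < n := Nat.pos_of_ne_zero (NeZero.ne n)
  have hV := card_V Z k hZ
  refine ⟨Z.filter (fun z => ff Z z % 2 = 0), Z.filter (fun z => ¬ ff Z z % 2 = 0), filter_union_filter_not_eq _ _,
    disjoint_filter_filter_not _ _ _, hV, ?_, ?_⟩
  · have := card_filter_add_card_filter_not (s := Z) (fun z => ff Z z % 2 = 0)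
    omega
  · intro y hy r hr1 hyr hs
    rw [filter_union_filter_not_eq] at hy hyr hs
    have hmem : ∀ w ∈ Z, ∀ s : ℕ, 1 ≤ s → s < r → (y.val + s = w.val ∨ y.val + s = w.val + n) → False := by
      intro w hw s hs1 hs2 h
      apply hs s hs1 hs2
      rcases h with h | h
      · rw [cast_val_add y s _ h, ZMod.natCast_zmod_val]
        exact hw
      · rw [cast_val_add y s _ h, Nat.cast_add, ZMod.natCast_zmod_val, ZMod.natCast_self, add_zero]
        exact hw
    have hyn : y.val < n := ZMod.val_lt y
    have hrn : r < n := by
      by_contra hcon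
      rcases Nat.lt_or_ge n r with h | h
      · exact hmem y hy n hn h (Or.inr rfl)
      · have hrn : r = n := by omega
        subst hrn
        obtain ⟨w, hw, hwy⟩ : ∃ w ∈ Z, w ≠ y := by
          have : 1 < Z.card := by omega
          obtain ⟨a, ha, b, hb, hab⟩ := one_lt_card.1 this
          by_cases h : a = y
          · exact ⟨b, hb, fun h' => hab (h.trans h'.symm)⟩
          · exact ⟨a, ha, h⟩
        have hwn : w.val < r := ZMod.val_lt w
        have hne : w.val ≠ y.val := fun h => hwy (ZMod.val_injective r h)
        rcases Nat.lt_or_ge y.val w.val with h1 | h1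
        · exact hmem w hw (w.val - y.val) (by omega) (by omega) (Or.inl (by omega))
        · exact hmem w hw (w.val + r - y.val) (by omega) (by omega) (Or.inr (by omega))
    rw [mem_filter, mem_filter]
    simp only [hy, hyr, true_and]
    rcases Nat.lt_or_ge (y.val + r) n with h | h
    · have hv : (y + (r : ZMod n)).val = y.val + r := by
        rw [cast_val_add y r _ rfl, ZMod.val_natCast, Nat.mod_eq_of_lt h]
      have hf : ff Z (y + (r : ZMod n)) = ff Z y + 1 := by
        unfold ff
        rw [hv]
        have : Z.filter (fun w => w.val < y.val + r) = insert y (Z.filter (fun w => w.val < y.val)) := by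
          ext w
          rw [mem_insert, mem_filter, mem_filter]
          constructor
          · rintro ⟨h1, h2⟩
            rcases lt_trichotomy w.val y.val with h3 | h3 | h3
            · exact Or.inr ⟨h1, h3⟩
            · exact Or.inl (ZMod.val_injective n h3)
            · exact (hmem w h1 (w.val - y.val) (by omega) (by omega) (Or.inl (by omega))).elim
          · rintro (rfl | ⟨h1, h2⟩)
            · exact ⟨hy, by omega⟩
            · exact ⟨h1, by omega⟩
        rw [this, card_insert_of_notMem]
        intro h'
        exact absurd (mem_filter.1 h').2 (lt_irrefl _)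
      rw [hf]
      omega
    · have hv : (y + (r : ZMod n)).val = y.val + r - n := by
        rw [cast_val_add y r (y.val + r - n + n) (by omega), Nat.cast_add, ZMod.natCast_self, add_zero,
          ZMod.val_natCast, Nat.mod_eq_of_lt (by omega)]
      have hf0 : ff Z (y + (r : ZMod n)) = 0 := by
        unfold ff
        rw [hv, card_eq_zero, filter_eq_empty_iff]
        intro w hw h2
        exact hmem w hw (w.val + n - y.val) (by omega) (by omega) (Or.inr (by omega))
      have hf1 : ff Z y = 2 * k - 1 := by
        unfold ff
        have : Z.filter (fun w => w.val < y.val) = Z.erase y := by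
          ext w
          rw [mem_erase, mem_filter]
          constructor
          · rintro ⟨h1, h2⟩
            exact ⟨fun h3 => by rw [h3] at h2; exact lt_irrefl _ h2, h1⟩
          · rintro ⟨h1, h2⟩
            refine ⟨h2, ?_⟩
            by_contra h3
            have h4 : w.val ≠ y.val := fun h => h1 (ZMod.val_injective n h)
            have h5 : w.val < n := ZMod.val_lt w
            exact hmem w h2 (w.val - y.val) (by omega) (by omega) (Or.inl (by omega))
        rw [this, card_erase_of_mem hy, hZ]
      rw [hf0, hf1]
      omega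

end Pool.Agent.P8H82.IE
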